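import Pool.Agent.K4H96.MD.Red

/-!
# Bounded bases of lattices in space with bounded determinant and no short vectors
-/

set_option autoImplicit false

namespace Pool.Agent.K4H96.MD

open Pool.Agent.H349R2.Tet (V lat dt lat_add lat_smul lat_neg dt_ne_zero_iff)

theorem norm_sq_le_nsq (x : V) : ‖x‖ ^ 2 ≤ nsq x := by
  have h : ‖x‖ ≤ Real.sqrt (nsq x) := by
    rw [pi_norm_le_iff_of_nonneg (Real.sqrt_nonneg _)]
    intro i
    rw [Real.norm_eq_abs]
    apply Real.abs_le_sqrt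
    unfold nsq
    fin_cases i <;> simp only [Fin.zero_eta, Fin.mk_one, Fin.reduceFinMk] <;> nlinarith [sq_nonneg (x 0), sq_nonneg (x 1), sq_nonneg (x 2)]
  calc ‖x‖ ^ 2 ≤ Real.sqrt (nsq x) ^ 2 := by
        apply pow_le_pow_left₀ (norm_nonneg _) h
    _ = nsq x := Real.sq_sqrt (nsq_nonneg x)

theorem nsq_le_norm (x : V) : nsq x ≤ 3 * ‖x‖ ^ 2 := by
  have h : ∀ i, x i ^ 2 ≤ ‖x‖ ^ 2 := by
    intro i
    rw [← sq_abs (x i), ← Real.norm_eq_abs]
    exact pow_le_pow_left₀ (norm_nonneg _) (norm_le_pi_norm x i) 2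
  unfold nsq
  linarith [h 0, h 1, h 2]

/-- the coordinates of bounded lattice vectors are bounded, uniformly near a basis -/
theorem coord_bound (b : Fin 3 → V) (hb : dt b ≠ 0) :
    ∃ c : ℝ, 0 < c ∧ ∀ z : Fin 3 → ℝ, c * ‖z‖ ≤ ‖∑ i, z i • b i‖ := by
  have hli := (dt_ne_zero_iff b).1 hb
  let f : (Fin 3 → ℝ) →ₗ[ℝ] V := Fintype.linearCombination ℝ b
  have hf : LinearMap.ker f = ⊥ := by
    rw [LinearMap.ker_eq_bot']
    intro z hz
    have hz' : ∑ i, z i • b i = 0 := by simpa [f, Fintype.linearCombination_apply] using hz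
    funext i
    exact Fintype.linearIndependent_iff.1 hli z hz' i
  obtain ⟨K, hK, hK'⟩ := f.exists_antilipschitzWith hf
  have hK0 : (0 : ℝ) < K := by exact_mod_cast hK
  refine ⟨(K : ℝ)⁻¹, by positivity, fun z => ?_⟩
  have := hK'.le_mul_dist z 0
  rw [dist_zero_right, map_zero, dist_zero_right] at this
  have e : f z = ∑ i, z i • b i := by
    simp [f, Fintype.linearCombination_apply]
  rw [e] at this
  rw [inv_mul_le_iff₀ hK0]
  exact this

theorem lat_finite (b : Fin 3 → V) (hb : dt b ≠ 0) (R : ℝ) : {v | v ∈ lat b ∧ ‖v‖ ≤ R}.Finite := by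
  obtain ⟨c, hc, h⟩ := coord_bound b hb
  have hfin : (Set.Icc (fun _ : Fin 3 => -⌈R / c⌉) (fun _ => ⌈R / c⌉)).Finite := Set.finite_Icc _ _
  apply (hfin.image (fun z : Fin 3 → ℤ => ∑ i, (z i : ℝ) • b i)).subset
  rintro v ⟨⟨z, rfl⟩, hv⟩
  refine ⟨z, ?_, rfl⟩
  have h1 := (h fun i => (z i : ℝ)).trans hv
  have h2 : ∀ i, |(z i : ℝ)| ≤ R / c := by
    intro i
    rw [le_div_iff₀ hc, mul_comm]
    refine le_trans (mul_le_mul_of_nonneg_left ?_ hc.le) h1
    rw [← Real.norm_eq_abs]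
    exact norm_le_pi_norm (fun i => (z i : ℝ)) i
  rw [Set.mem_Icc]
  constructor <;> intro i
  · have := (abs_le.1 (h2 i)).1
    have h3 : R / c ≤ (⌈R / c⌉ : ℝ) := Int.le_ceil _
    have : -(⌈R / c⌉ : ℝ) ≤ z i := by linarith
    exact_mod_cast this
  · have := (abs_le.1 (h2 i)).2
    have h3 : R / c ≤ (⌈R / c⌉ : ℝ) := Int.le_ceil _
    have : (z i : ℝ) ≤ (⌈R / c⌉ : ℝ) := by linarith
    exact_mod_cast this

/-- total squared length -/
def tot (b : Fin 3 → V) : ℝ := nsq (b 0) + nsq (b 1) + nsq (b 2)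

theorem tot_eq (b : Fin 3 → V) : tot b = ∑ i, nsq (b i) := by
  rw [Fin.sum_univ_three]; rfl

theorem exists_min (b : Fin 3 → V) (hb : dt b ≠ 0) :
    ∃ b' : Fin 3 → V, lat b' = lat b ∧ |dt b'| = |dt b| ∧
      ∀ b'' : Fin 3 → V, lat b'' = lat b → |dt b''| = |dt b| → tot b' ≤ tot b'' := by
  set S : Set (Fin 3 → V) := {b' | lat b' = lat b ∧ |dt b'| = |dt b| ∧ tot b' ≤ tot b} with hS
  have hfin : S.Finite := by
    have h1 : ({v | v ∈ lat b ∧ ‖v‖ ≤ Real.sqrt (tot b)}).Finite := lat_finite b hb _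
    have h2 : (Set.pi Set.univ fun _ : Fin 3 => {v | v ∈ lat b ∧ ‖v‖ ≤ Real.sqrt (tot b)}).Finite :=
      Set.Finite.pi fun _ => h1
    apply h2.subset
    rintro b' ⟨hl, -, ht⟩ i -
    refine ⟨hl ▸ self_mem b' i, ?_⟩
    apply Real.le_sqrt_of_sq_le
    refine (norm_sq_le_nsq _).trans (le_trans ?_ ht)
    rw [tot_eq]
    exact Finset.single_le_sum (fun j _ => nsq_nonneg (b' j)) (Finset.mem_univ i)
  obtain ⟨b', hb', hmin⟩ := hfin.exists_minimalFor tot S ⟨b, rfl, rfl, le_rfl⟩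
  refine ⟨b', hb'.1, hb'.2.1, fun b'' h1 h2 => ?_⟩
  by_cases h3 : tot b'' ≤ tot b
  · by_contra hlt
    push Not at hlt
    exact absurd (hmin ⟨h1, h2, h3⟩ hlt.le) (not_le.2 hlt)
  · push Not at h3
    exact hb'.2.2.trans h3.le

theorem perm_lat (b : Fin 3 → V) (σ : Equiv.Perm (Fin 3)) : lat (b ∘ σ) = lat b := by
  apply Set.Subset.antisymm
  · exact lat_subset fun k => self_mem b (σ k)
  · apply lat_subset
    intro k
    have := self_mem (b ∘ σ) (σ.symm k)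
    simpa using this

theorem perm_dt (b : Fin 3 → V) (σ : Equiv.Perm (Fin 3)) : |dt (b ∘ σ)| = |dt b| := by
  unfold dt
  have : Matrix.of (b ∘ σ) = (Matrix.of b).submatrix σ id := rfl
  rw [this, Matrix.det_permute, abs_mul]
  have h1 : |((Equiv.Perm.sign σ : ℤ) : ℝ)| = 1 := by
    rcases Int.units_eq_one_or (Equiv.Perm.sign σ) with h | h <;> simp [h]
  rw [h1, one_mul]

theorem exists_sorted (b : Fin 3 → V) (hb : dt b ≠ 0) :
    ∃ b' : Fin 3 → V, lat b' = lat b ∧ |dt b'| = |dt b| ∧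
      (∀ b'' : Fin 3 → V, lat b'' = lat b → |dt b''| = |dt b| → tot b' ≤ tot b'') ∧
      nsq (b' 0) ≤ nsq (b' 1) ∧ nsq (b' 1) ≤ nsq (b' 2) := by
  obtain ⟨b', h1, h2, h3⟩ := exists_min b hb
  let σ := Tuple.sort (fun i => nsq (b' i))
  have hm : Monotone ((fun i => nsq (b' i)) ∘ σ) := Tuple.monotone_sort _
  refine ⟨b' ∘ σ, (perm_lat b' σ).trans h1, (perm_dt b' σ).trans h2, fun b'' g1 g2 => ?_, ?_, ?_⟩
  · refine le_trans (le_of_eq ?_) (h3 b'' g1 g2)
    rw [tot_eq, tot_eq]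
    exact Equiv.sum_comp σ (fun i => nsq (b' i))
  · exact hm (by decide : (0 : Fin 3) ≤ 1)
  · exact hm (by decide : (1 : Fin 3) ≤ 2)

theorem tot_update (b : Fin 3 → V) (i : Fin 3) (w : V) :
    tot (Function.update b i w) = tot b - nsq (b i) + nsq w := by
  unfold tot
  fin_cases i <;> simp [Function.update] <;> ring

/-- **Bounded bases.** -/
theorem bounded_basis (b : Fin 3 → V) (hb : dt b ≠ 0) {ρ M : ℝ} (hρ : 0 < ρ)
    (hmin : ∀ u ∈ lat b, u ≠ 0 → ρ ≤ nsq u) (hM : |dt b| ≤ M) :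
    ∃ b' : Fin 3 → V, lat b' = lat b ∧ |dt b'| = |dt b| ∧ ρ ^ 3 / 4 ≤ dt b' ^ 2 ∧
      ∀ i, nsq (b' i) ≤ 4 * M ^ 2 / ρ ^ 2 := by
  obtain ⟨b', h1, h2, h3, h01, h12⟩ := exists_sorted b hb
  have hb' : dt b' ≠ 0 := by
    rw [← abs_pos, h2, abs_pos]; exact hb
  have hne : ∀ i, b' i ≠ 0 := fun i => ((dt_ne_zero_iff b').1 hb').ne_zero i
  have hge : ∀ i, ρ ≤ nsq (b' i) := fun i => hmin _ (h1 ▸ self_mem b' i) (hne i)
  -- pair conditions
  have pair : ∀ i j : Fin 3, i ≠ j → 2 * |ip (b' i) (b' j)| ≤ nsq (b' j) := by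
    intro i j hij
    have key : ∀ c : ℤ, 0 ≤ 2 * (c : ℝ) * ip (b' i) (b' j) + (c : ℝ) ^ 2 * nsq (b' j) := by
      intro c
      have := h3 (Function.update b' i (b' i + (c : ℝ) • b' j)) ((op_lat b' hij c).trans h1)
        (by rw [op_dt b' hij, h2])
      rw [tot_update, nsq_add] at this
      linarith
    have k1 := key 1
    have k2 := key (-1)
    push_cast at k1 k2
    rw [← abs_of_pos (two_pos : (0 : ℝ) < 2), ← abs_mul, abs_le]
    constructor <;> linarith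
  have ip_comm : ∀ x y : V, ip x y = ip y x := fun x y => by unfold ip; ring
  -- triple condition
  have triple : ∀ c d : ℤ, 0 ≤ 2 * (c : ℝ) * ip (b' 0) (b' 2) + (c : ℝ) ^ 2 * nsq (b' 0)
      + 2 * (d : ℝ) * ip (b' 1) (b' 2) + (d : ℝ) ^ 2 * nsq (b' 1)
      + 2 * (c : ℝ) * (d : ℝ) * ip (b' 0) (b' 1) := by
    intro c d
    set b1 := Function.update b' 2 (b' 2 + (c : ℝ) • b' 0) with hb1
    have e0 : b1 0 = b' 0 := Function.update_of_ne (by decide) _ _
    have e1 : b1 1 = b' 1 := Function.update_of_ne (by decide) _ _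
    have e2 : b1 2 = b' 2 + (c : ℝ) • b' 0 := Function.update_self _ _ _
    have g1 : lat b1 = lat b := (op_lat b' (by decide) c).trans h1
    have g2 : |dt b1| = |dt b| := by rw [hb1, op_dt b' (by decide), h2]
    have := h3 (Function.update b1 2 (b1 2 + (d : ℝ) • b1 1)) ((op_lat b1 (by decide) d).trans g1)
      (by rw [op_dt b1 (by decide), g2])
    rw [tot_update, e2, e1, nsq_add, nsq_add, hb1, tot_update, nsq_add] at this
    have e3 : ip (b' 2 + (c : ℝ) • b' 0) (b' 1) = ip (b' 1) (b' 2) + c * ip (b' 0) (b' 1) := by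
      simp only [ip, Pi.add_apply, Pi.smul_apply, smul_eq_mul]; ring
    rw [e3, ip_comm (b' 2) (b' 0)] at this
    nlinarith [this]
  set a := nsq (b' 0) with ha
  set B := nsq (b' 1) with hB
  set c := nsq (b' 2) with hc
  set p := ip (b' 1) (b' 2) with hp
  set q := ip (b' 0) (b' 2) with hq
  set r := ip (b' 0) (b' 1) with hr
  have ha0 : 0 < a := hρ.trans_le (hge 0)
  have p1 : 2 * |p| ≤ B := by
    have := pair 2 1 (by decide); rwa [ip_comm (b' 2) (b' 1)] at this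
  have p2 : 2 * |q| ≤ a := by
    have := pair 2 0 (by decide); rwa [ip_comm (b' 2) (b' 0)] at this
  have p3 : 2 * |r| ≤ a := by
    have := pair 1 0 (by decide); rwa [ip_comm (b' 1) (b' 0)] at this
  have p4 : p * q * r < 0 → 2 * (|p| + |q| + |r|) ≤ a + B := by
    intro hneg
    have t1 := triple 1 1
    have t2 := triple 1 (-1)
    have t3 := triple (-1) 1
    have t4 := triple (-1) (-1)
    push_cast at t1 t2 t3 t4
    rcases abs_cases p with ⟨hp1, hp2⟩ | ⟨hp1, hp2⟩ <;> rcases abs_cases q with ⟨hq1, hq2⟩ | ⟨hq1, hq2⟩ <;>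
      rcases abs_cases r with ⟨hr1, hr2⟩ | ⟨hr1, hr2⟩ <;> rw [hp1, hq1, hr1]
    · exact absurd hneg (not_lt.2 (mul_nonneg (mul_nonneg hp2 hq2) hr2))
    · linarith
    · linarith
    · exact absurd hneg (not_lt.2 (by
        have := mul_nonneg hp2 (mul_nonneg_of_nonpos_of_nonpos hq2.le hr2.le); nlinarith))
    · linarith
    · exact absurd hneg (not_lt.2 (by
        have := mul_nonneg hq2 (mul_nonneg_of_nonpos_of_nonpos hp2.le hr2.le); nlinarith))
    · exact absurd hneg (not_lt.2 (by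
        have := mul_nonneg hr2 (mul_nonneg_of_nonpos_of_nonpos hp2.le hq2.le); nlinarith))
    · linarith
  have hD := alg ha0 h01 h12 p1 p2 p3 p4
  have hG : dt b' ^ 2 = a * B * c + 2 * p * q * r - a * p ^ 2 - B * q ^ 2 - c * r ^ 2 := gram b'
  have hD' : a * B * c / 4 ≤ dt b' ^ 2 := by rw [hG]; linarith
  have hdM : dt b' ^ 2 ≤ M ^ 2 := by
    rw [← sq_abs, h2]
    exact pow_le_pow_left₀ (abs_nonneg _) hM 2
  have ga : ρ ≤ a := hge 0
  have gB : ρ ≤ B := hge 1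
  have gc : ρ ≤ c := hge 2
  have f1 : ρ * ρ ≤ a * B := mul_le_mul ga gB hρ.le (hρ.le.trans ga)
  refine ⟨b', h1, h2, ?_, ?_⟩
  · have : ρ * ρ * ρ ≤ a * B * c := mul_le_mul f1 gc hρ.le (mul_nonneg ha0.le (hρ.le.trans gB))
    linarith [this, hD', show ρ ^ 3 = ρ * ρ * ρ by ring]
  · have hcb : c ≤ 4 * M ^ 2 / ρ ^ 2 := by
      rw [le_div_iff₀ (by positivity)]
      have : c * (ρ * ρ) ≤ c * (a * B) := mul_le_mul_of_nonneg_left f1 (hρ.le.trans gc)
      nlinarith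
    intro i
    fin_cases i
    · exact (h01.trans h12).trans hcb
    · exact h12.trans hcb
    · exact hcb

end Pool.Agent.K4H96.MD
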