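import Mathlib
import Pool.Agent.H73R3.Hull
import Pool.Agent.K4H96.MD.Red2

/-!
# Cutting off an extreme point of a convex body
-/

set_option autoImplicit false

open MeasureTheory

namespace Pool.Agent.K4H96.MD

open Pool.Agent.H349R2.Tet (V lat dt Ov)

/-- the convex hull of the points of `K` at distance at least `ρ` from `x` -/
def cut (K : Set V) (x : V) (ρ : ℝ) : Set V := convexHull ℝ (K \ Metric.ball x ρ)

variable {K : Set V} {x : V}

theorem cut_convex (ρ : ℝ) : Convex ℝ (cut K x ρ) := convex_convexHull ℝ _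

theorem cut_compact (hK : IsCompact K) (ρ : ℝ) : IsCompact (cut K x ρ) :=
  Pool.Agent.H73R3.compact_hull (hK.diff Metric.isOpen_ball)

theorem cut_subset (hc : Convex ℝ K) (ρ : ℝ) : cut K x ρ ⊆ K :=
  convexHull_min Set.sdiff_subset hc

theorem cut_mono {ρ ρ' : ℝ} (h : ρ ≤ ρ') : cut K x ρ' ⊆ cut K x ρ :=
  convexHull_mono (Set.sdiff_subset_sdiff_right (Metric.ball_subset_ball h))

theorem mem_cut {ρ : ℝ} {y : V} (hy : y ∈ K) (h : ρ ≤ dist y x) : y ∈ cut K x ρ :=
  subset_convexHull ℝ _ ⟨hy, by rw [Metric.mem_ball, not_lt]; exact h⟩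

theorem notMem_cut (hc : Convex ℝ K) (hx : x ∈ K.extremePoints ℝ) {ρ : ℝ} (hρ : 0 < ρ) :
    x ∉ cut K x ρ := by
  have h1 := (hc.mem_extremePoints_iff_convex_sdiff.1 hx).2
  have h2 : cut K x ρ ⊆ K \ {x} := by
    apply convexHull_min _ h1
    rintro y ⟨hy, hyx⟩
    refine ⟨hy, ?_⟩
    rintro rfl
    exact hyx (Metric.mem_ball_self hρ)
  intro h
  exact (h2 h).2 rfl

/-- interior points of `K` different from `x` are interior points of the cut bodies -/
theorem interior_cut {y : V} (hy : y ∈ interior K) (hyx : y ≠ x) :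
    ∃ ρ > 0, y ∈ interior (cut K x ρ) := by
  have hd : 0 < dist y x := dist_pos.2 hyx
  refine ⟨dist y x / 2, by positivity, ?_⟩
  obtain ⟨r, hr, hball⟩ := Metric.mem_nhds_iff.1 (mem_interior_iff_mem_nhds.1 hy)
  rw [mem_interior_iff_mem_nhds, Metric.mem_nhds_iff]
  refine ⟨min r (dist y x / 2), by positivity, fun z hz => ?_⟩
  rw [Metric.mem_ball, lt_min_iff] at hz
  apply mem_cut (hball (Metric.mem_ball.2 hz.1))
  have := dist_triangle y z x
  rw [dist_comm y z] at this
  linarith [hz.2]

/-- extreme points are not interior points -/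
theorem extreme_notMem_interior (hx : x ∈ K.extremePoints ℝ) : x ∉ interior K := by
  intro h
  obtain ⟨r, hr, hball⟩ := Metric.mem_nhds_iff.1 (mem_interior_iff_mem_nhds.1 h)
  set v : V := fun _ => r / 2 with hv
  have hvn : ‖v‖ ≤ r / 2 := by
    rw [pi_norm_le_iff_of_nonneg (by positivity)]
    intro i
    simp only [hv, Real.norm_eq_abs]
    rw [abs_of_pos (by positivity)]
  have h1 : x + v ∈ K := hball (by rw [Metric.mem_ball, dist_eq_norm, add_sub_cancel_left]; linarith)
  have h2 : x - v ∈ K := hball (by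
    rw [Metric.mem_ball, dist_eq_norm, sub_sub_cancel_left, norm_neg]; linarith)
  have h3 : x ∈ openSegment ℝ (x + v) (x - v) := by
    refine ⟨1 / 2, 1 / 2, by norm_num, by norm_num, by norm_num, ?_⟩
    rw [← smul_add]
    have : x + v + (x - v) = (2 : ℝ) • x := by rw [two_smul]; abel
    rw [this, smul_smul]; norm_num
  have h4 := (mem_extremePoints.1 hx).2 _ h1 _ h2 h3
  have h5 : v = 0 := by
    have := h4.1
    rwa [add_eq_left] at this
  have h6 := congrFun h5 0
  simp only [hv, Pi.zero_apply] at h6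
  linarith

/-- the cut bodies are smaller -/
theorem cut_volume (hK : IsCompact K) (hc : Convex ℝ K) (hne : (interior K).Nonempty)
    (hx : x ∈ K.extremePoints ℝ) {ρ : ℝ} (hρ : 0 < ρ) : volume (cut K x ρ) < volume K := by
  have hcl : closure (interior K) = K := by
    rw [hc.closure_interior_eq_closure_of_nonempty_interior hne, hK.isClosed.closure_eq]
  have hxc : x ∈ closure (interior K) := hcl.symm ▸ (mem_extremePoints.1 hx).1
  have hopen : IsOpen (cut K x ρ)ᶜ := (cut_compact hK ρ).isClosed.isOpen_compl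
  obtain ⟨z, hz1, hz2⟩ := mem_closure_iff.1 hxc _ hopen (notMem_cut hc hx hρ)
  set U := interior K ∩ (cut K x ρ)ᶜ with hU
  have hUo : IsOpen U := isOpen_interior.inter hopen
  have hUp : 0 < volume U := hUo.measure_pos volume ⟨z, hz2, hz1⟩
  have hdisj : Disjoint (cut K x ρ) U := by
    rw [Set.disjoint_left]
    intro w hw hw'
    exact hw'.2 hw
  have h1 : volume (cut K x ρ) + volume U ≤ volume K := by
    rw [← measure_union hdisj hUo.measurableSet]
    apply measure_mono
    apply Set.union_subset (cut_subset hc ρ)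
    exact Set.inter_subset_left.trans interior_subset
  have h2 : volume (cut K x ρ) ≠ ⊤ := (cut_compact hK ρ).measure_lt_top.ne
  exact lt_of_lt_of_le (ENNReal.lt_add_right h2 hUp.ne') h1

/-- the cut bodies are close to `K` -/
theorem cut_near (hc : Convex ℝ K) {z : V} (hz : z ∈ K) (hx : x ∈ K) (hzx : z ≠ x) {ρ : ℝ}
    (hρ : 0 < ρ) (hρ' : ρ ≤ dist z x) {y : V} (hy : y ∈ K) :
    ∃ y' ∈ cut K x ρ, dist y y' ≤ 2 * ρ := by
  by_cases h : ρ ≤ dist y x
  · exact ⟨y, mem_cut hy h, by rw [dist_self]; positivity⟩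
  · push Not at h
    have hd : 0 < dist z x := dist_pos.2 hzx
    set t := ρ / dist z x with ht
    have ht0 : 0 < t := by positivity
    have ht1 : t ≤ 1 := (div_le_one hd).2 hρ'
    refine ⟨(1 - t) • x + t • z, mem_cut (hc hx hz (by linarith) ht0.le (by ring)) ?_, ?_⟩
    · have e : (1 - t) • x + t • z - x = t • (z - x) := by
        rw [sub_smul, one_smul, smul_sub]; abel
      rw [dist_eq_norm, e, norm_smul, Real.norm_eq_abs, abs_of_pos ht0, ← dist_eq_norm, ht,
        div_mul_cancel₀ _ hd.ne']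
    · have e : x - ((1 - t) • x + t • z) = (-t) • (z - x) := by
        rw [sub_smul, one_smul, neg_smul, smul_sub]; abel
      have h2 : dist x ((1 - t) • x + t • z) = ρ := by
        rw [dist_eq_norm, e, norm_smul, Real.norm_eq_abs, abs_neg, abs_of_pos ht0, ← dist_eq_norm,
          ht, div_mul_cancel₀ _ hd.ne']
      have := dist_triangle y x ((1 - t) • x + t • z)
      linarith

end Pool.Agent.K4H96.MD
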