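import Mathlib
import Pool.Agent.K4H96.MD.Cut

/-!
# The contact at an extreme point
-/

set_option autoImplicit false

open MeasureTheory

namespace Pool.Agent.K4H96.MD

open Pool.Agent.H349R2.Tet (V lat dt Ov dt_ne_zero_iff)

variable {K : Set V} {x : V}

/-- the set in which `K` meets `K + p` -/
def touch (K : Set V) (p : V) : Set V := {y | y ∈ K ∧ y - p ∈ K}

theorem Ov_mono {A B : Set V} (h : A ⊆ B) {u : V} (hu : Ov A u) : Ov B u := by
  obtain ⟨y, h1, h2⟩ := hu
  exact ⟨y, interior_mono h h1, interior_mono h h2⟩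

/-- case A: `x` is not a point of contact -/
theorem caseA (hK : IsCompact K) {p : V}
    (hseq : ∀ ρ > 0, ∀ ε > 0, ∃ u : V, ‖u - p‖ < ε ∧ Ov K u ∧ ¬ Ov (cut K x ρ) u) :
    x - p ∈ K ∨ x + p ∈ K := by
  by_contra hcon
  push Not at hcon
  obtain ⟨h1, h2⟩ := hcon
  have hopen : IsOpen Kᶜ := hK.isClosed.isOpen_compl
  obtain ⟨ε1, hε1, hb1⟩ := Metric.isOpen_iff.1 hopen _ h1
  obtain ⟨ε2, hε2, hb2⟩ := Metric.isOpen_iff.1 hopen _ h2
  set ε := min ε1 ε2 / 2 with hε
  have hε0 : 0 < ε := by positivity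
  have e1 : 2 * ε ≤ ε1 := by rw [hε]; linarith [min_le_left ε1 ε2]
  have e2 : 2 * ε ≤ ε2 := by rw [hε]; linarith [min_le_right ε1 ε2]
  obtain ⟨u, hu, ⟨y, hy1, hy2⟩, hnot⟩ := hseq ε hε0 ε hε0
  apply hnot
  set O : Set V := interior K ∩ (fun z => z - u) ⁻¹' interior K with hO
  have hOo : IsOpen O := isOpen_interior.inter (isOpen_interior.preimage (by fun_prop))
  have key : ∀ z ∈ O, z ∈ cut K x ε ∧ z - u ∈ cut K x ε := by
    rintro z ⟨hz1, hz2⟩
    have hz1' := interior_subset hz1
    have hz2' : z - u ∈ K := interior_subset hz2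
    constructor
    · apply mem_cut hz1'
      by_contra hlt
      push Not at hlt
      refine absurd hz2' (hb1 (a := z - u) ?_)
      rw [Metric.mem_ball, dist_eq_norm]
      have : z - u - (x - p) = (z - x) - (u - p) := by abel
      rw [this]
      refine (norm_sub_le _ _).trans_lt ?_
      rw [dist_eq_norm] at hlt
      linarith
    · apply mem_cut hz2'
      by_contra hlt
      push Not at hlt
      refine absurd hz1' (hb2 (a := z) ?_)
      rw [Metric.mem_ball, dist_eq_norm]
      have : z - (x + p) = (z - u - x) + (u - p) := by abel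
      rw [this]
      refine (norm_add_le _ _).trans_lt ?_
      rw [dist_eq_norm] at hlt
      linarith
  refine ⟨y, mem_interior.2 ⟨O, fun z hz => (key z hz).1, hOo, hy1, hy2⟩, ?_⟩
  refine mem_interior.2 ⟨(fun w => w + u) ⁻¹' O, fun w hw => ?_, hOo.preimage (by fun_prop), ?_⟩
  · have := (key (w + u) hw).2
    rwa [add_sub_cancel_right] at this
  · show y - u + u ∈ O
    rw [sub_add_cancel]
    exact ⟨hy1, hy2⟩

/-- a point in the middle of a segment of `K` is not extreme -/
theorem ne_of_mid (hx : x ∈ K.extremePoints ℝ) {g v : V} (hv : v ≠ 0) (h1 : g + v ∈ K)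
    (h2 : g - v ∈ K) : g ≠ x := by
  rintro rfl
  have h3 : g ∈ openSegment ℝ (g + v) (g - v) := by
    refine ⟨1 / 2, 1 / 2, by norm_num, by norm_num, by norm_num, ?_⟩
    rw [← smul_add]
    have : g + v + (g - v) = (2 : ℝ) • g := by rw [two_smul]; abel
    rw [this, smul_smul]; norm_num
  have h4 := (mem_extremePoints.1 hx).2 _ h1 _ h2 h3
  have h5 := h4.1
  rw [add_eq_left] at h5
  exact hv h5

/-- three points of a convex set -/
theorem three {S : Set V} (hS : Convex ℝ S) {a b c : V} (ha : a ∈ S) (hb : b ∈ S) (hc : c ∈ S)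
    {r s t : ℝ} (hr : 0 ≤ r) (hs : 0 ≤ s) (ht : 0 ≤ t) (h : r + s + t = 1) :
    r • a + s • b + t • c ∈ S := by
  have := hS.sum_mem (t := Finset.univ) (w := ![r, s, t]) (z := ![a, b, c])
    (by intro i _; fin_cases i <;> simpa) (by simp [Fin.sum_univ_three]; linarith)
    (by intro i _; fin_cases i <;> simpa)
  simpa [Fin.sum_univ_three] using this

theorem touch_convex (hc : Convex ℝ K) (p : V) : Convex ℝ (touch K p) := by
  rintro y ⟨h1, h2⟩ z ⟨h3, h4⟩ a b ha hb hab
  refine ⟨hc h1 h3 ha hb hab, ?_⟩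
  have : a • y + b • z - p = a • (y - p) + b • (z - p) := by
    rw [smul_sub, smul_sub]
    have h5 : p = a • p + b • p := by rw [← add_smul, hab, one_smul]
    nth_rewrite 1 [h5]
    abel
  rw [this]
  exact hc h2 h4 ha hb hab

/-- case B: the contact set is not plane -/
theorem caseB (hK : IsCompact K) (hc : Convex ℝ K) (hne : (interior K).Nonempty)
    (hx : x ∈ K.extremePoints ℝ) {p : V} (hpo : ¬ Ov K p) (hy : (touch K p).Nonempty)
    (hseq : ∀ ρ > 0, ∀ ε > 0, ∃ u : V, ‖u - p‖ < ε ∧ Ov K u ∧ ¬ Ov (cut K x ρ) u) :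
    Collinear ℝ (touch K p) := by
  by_contra hcol
  obtain ⟨p0, hp0⟩ := hy
  rw [collinear_iff_of_mem hp0] at hcol
  push Not at hcol
  -- two directions
  obtain ⟨y2, hy2, hy2'⟩ := hcol 0
  have hv0 : y2 - p0 ≠ 0 := by
    intro h
    apply hy2' 0
    rw [smul_zero, zero_vadd]
    exact sub_eq_zero.1 h
  set v : V := y2 - p0 with hv
  obtain ⟨y3, hy3, hy3'⟩ := hcol v
  set w : V := y3 - p0 with hw
  have hpair : LinearIndependent ℝ ![v, w] := by
    rw [LinearIndependent.pair_iff' hv0]
    intro a ha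
    apply hy3' a
    rw [ha, vadd_eq_add, hw, sub_add_cancel]
  have hcl : closure (interior K) = K := by
    rw [hc.closure_interior_eq_closure_of_nonempty_interior hne, hK.isClosed.closure_eq]
  -- separation
  have hdisj : Disjoint (interior K) ((fun z => z - p) ⁻¹' interior K) := by
    rw [Set.disjoint_left]
    intro z h1 h2
    exact hpo ⟨z, h1, h2⟩
  have hconv : Convex ℝ ((fun z => z - p) ⁻¹' interior K) := by
    have := hc.interior.translate_preimage_right (-p)
    have e : (fun z : V => -p + z) = fun z => z - p := by funext z; abel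
    rwa [e] at this
  obtain ⟨f, c, hf1, hf2⟩ := geometric_hahn_banach_open_open hc.interior isOpen_interior
    hconv (isOpen_interior.preimage (by fun_prop)) hdisj
  have g1 : ∀ a ∈ K, f a ≤ c := by
    intro a ha
    have hsub : closure (interior K) ⊆ {a | f a ≤ c} :=
      closure_minimal (fun a ha => (hf1 a ha).le) (isClosed_le (by fun_prop) continuous_const)
    exact hsub (hcl.symm ▸ ha)
  have g2 : ∀ a ∈ K, c ≤ f a + f p := by
    intro a ha
    have hsub : closure (interior K) ⊆ {a | c ≤ f a + f p} :=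
      closure_minimal (fun a ha => by
        have := hf2 (a + p) (by show a + p - p ∈ interior K; rwa [add_sub_cancel_right])
        rw [map_add] at this
        exact this.le) (isClosed_le continuous_const (by fun_prop))
    exact hsub (hcl.symm ▸ ha)
  obtain ⟨z0, hz0⟩ := hne
  have hfp : 0 < f p := by
    have h1 := hf1 z0 hz0
    have h2 := hf2 (z0 + p) (by show z0 + p - p ∈ interior K; rwa [add_sub_cancel_right])
    rw [map_add] at h2
    linarith
  have g3 : ∀ q ∈ touch K p, f q = c := by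
    rintro q ⟨h1, h2⟩
    have h3 := g1 q h1
    have h4 := g2 _ h2
    rw [map_sub] at h4
    linarith
  have hfv : f v = 0 := by rw [hv, map_sub, g3 _ hy2, g3 _ hp0, sub_self]
  have hfw : f w = 0 := by rw [hw, map_sub, g3 _ hy3, g3 _ hp0, sub_self]
  -- coordinates
  have hli : LinearIndependent ℝ ![v, w, p] := by
    rw [Fintype.linearIndependent_iff]
    intro g hg
    rw [Fin.sum_univ_three] at hg
    simp only [Matrix.cons_val_zero, Matrix.cons_val_one, Matrix.cons_val] at hg
    have h1 := congrArg f hg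
    rw [map_add, map_add, map_smul, map_smul, map_smul, hfv, hfw, map_zero] at h1
    simp only [smul_eq_mul, mul_zero, zero_add] at h1
    have h2 : g 2 = 0 := (mul_eq_zero.1 h1).resolve_right hfp.ne'
    rw [h2, zero_smul, add_zero] at hg
    have h3 := LinearIndependent.pair_iff.1 hpair _ _ hg
    intro i
    fin_cases i
    · exact h3.1
    · exact h3.2
    · exact h2
  obtain ⟨c0, hc0, hcoord⟩ := coord_bound ![v, w, p] ((dt_ne_zero_iff _).2 hli)
  have hspan : ∀ h : V, ∃ g : Fin 3 → ℝ, ∑ i, g i • ![v, w, p] i = h := by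
    intro h
    have h1 := hli.span_eq_top_of_card_eq_finrank' (by simp)
    have h2 : h ∈ Submodule.span ℝ (Set.range ![v, w, p]) := by rw [h1]; trivial
    exact (Submodule.mem_span_range_iff_exists_fun ℝ).1 h2
  -- the middle point of the triangle
  set g : V := p0 + ((1 : ℝ) / 3) • v + ((1 : ℝ) / 3) • w with hg
  have htri : ∀ α β : ℝ, |α| ≤ 1 / 6 → |β| ≤ 1 / 6 → g + α • v + β • w ∈ touch K p := by
    intro α β hα hβ
    rw [abs_le] at hα hβ
    have e : g + α • v + β • w = (1 / 3 - α - β) • p0 + (1 / 3 + α) • y2 + (1 / 3 + β) • y3 := by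
      rw [hg, hv, hw]
      module
    rw [e]
    exact three (touch_convex hc p) hp0 hy2 hy3 (by linarith) (by linarith) (by linarith) (by ring)
  have hg0 : g ∈ touch K p := by
    have := htri 0 0 (by norm_num) (by norm_num)
    rwa [zero_smul, zero_smul, add_zero, add_zero] at this
  have hgp : g + ((1 : ℝ) / 6) • v ∈ touch K p := by
    have := htri (1 / 6) 0 (by rw [abs_of_pos] <;> norm_num) (by norm_num)
    rwa [zero_smul, add_zero] at this
  have hgm : g - ((1 : ℝ) / 6) • v ∈ touch K p := by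
    have := htri (-(1 / 6)) 0 (by rw [abs_neg, abs_of_pos] <;> norm_num) (by norm_num)
    rwa [zero_smul, add_zero, neg_smul, ← sub_eq_add_neg] at this
  have hv6 : ((1 : ℝ) / 6) • v ≠ 0 := smul_ne_zero (by norm_num) hv0
  have hgx : g ≠ x := ne_of_mid hx hv6 hgp.1 hgm.1
  have hgx' : g - p ≠ x := by
    apply ne_of_mid hx hv6
    · have := hgp.2
      rwa [show g - p + ((1 : ℝ) / 6) • v = g + ((1 : ℝ) / 6) • v - p by abel]
    · have := hgm.2
      rwa [show g - p - ((1 : ℝ) / 6) • v = g - ((1 : ℝ) / 6) • v - p by abel]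
  have hz0x : z0 ≠ x := by
    rintro rfl
    exact extreme_notMem_interior hx hz0
  obtain ⟨ρ0, hρ0, hzc⟩ := interior_cut hz0 hz0x
  set ρ := min (dist g x) (dist (g - p) x) / 2 with hρ
  have hρpos : 0 < ρ := by
    have := dist_pos.2 hgx
    have := dist_pos.2 hgx'
    positivity
  have r1 : 2 * ρ ≤ dist g x := by rw [hρ]; linarith [min_le_left (dist g x) (dist (g - p) x)]
  have r2 : 2 * ρ ≤ dist (g - p) x := by
    rw [hρ]; linarith [min_le_right (dist g x) (dist (g - p) x)]
  set ρ1 := min ρ ρ0 with hρ1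
  have hρ1pos : 0 < ρ1 := by positivity
  have hzc1 : z0 ∈ interior (cut K x ρ1) :=
    interior_mono (cut_mono (min_le_right _ _)) hzc
  have hgpc : g - p ∈ cut K x ρ1 :=
    mem_cut hg0.2 (by linarith [min_le_left ρ ρ0])
  set N := ‖v‖ + ‖w‖ + 1 with hN
  have hNpos : 0 < N := by positivity
  set s := min (1 / 6) (ρ / N) with hs
  have hspos : 0 < s := by positivity
  have hgc : ∀ α β : ℝ, |α| ≤ s → |β| ≤ s → g + α • v + β • w ∈ cut K x ρ1 := by
    intro α β hα hβ
    apply mem_cut (htri α β (hα.trans (min_le_left _ _)) (hβ.trans (min_le_left _ _))).1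
    have h1 : dist g (g + α • v + β • w) ≤ ρ := by
      rw [dist_eq_norm]
      have e : g - (g + α • v + β • w) = -(α • v + β • w) := by abel
      rw [e, norm_neg]
      refine (norm_add_le _ _).trans ?_
      rw [norm_smul, norm_smul, Real.norm_eq_abs, Real.norm_eq_abs]
      calc |α| * ‖v‖ + |β| * ‖w‖ ≤ s * ‖v‖ + s * ‖w‖ := by gcongr
        _ ≤ s * N := by rw [hN]; nlinarith [hspos]
        _ ≤ ρ / N * N := by gcongr; exact min_le_right _ _
        _ = ρ := div_mul_cancel₀ _ hNpos.ne'
    have h2 := dist_triangle g (g + α • v + β • w) x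
    linarith [min_le_left ρ ρ0]
  -- the small overlap
  set A := ‖f‖ / f p with hA
  have hA0 : 0 ≤ A := by positivity
  set ε := min (1 / (2 * (A + 1))) (s * c0 / (2 * (1 + A * ‖p‖))) with hε
  have hεpos : 0 < ε := by positivity
  obtain ⟨u, hu, ⟨y, hy1, hy2⟩, hnot⟩ := hseq ρ1 hρ1pos ε hεpos
  apply hnot
  set W := p - u with hW
  have hWn : ‖W‖ < ε := by rw [hW, norm_sub_rev]; exact hu
  have hfW : 0 < f W := by
    have h1 := hf1 y hy1
    have h2 := hf2 (y - u + p) (by show y - u + p - p ∈ interior K; rwa [add_sub_cancel_right])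
    rw [map_add, map_sub] at h2
    rw [hW, map_sub]
    linarith
  set τ := f W / f p with hτ
  have hτ0 : 0 < τ := by positivity
  have hτA : τ ≤ A * ‖W‖ := by
    rw [hτ, hA, div_mul_eq_mul_div]
    gcongr
    exact (le_abs_self _).trans (f.le_opNorm W)
  have hτ1 : τ ≤ 1 / 2 := by
    calc τ ≤ A * ‖W‖ := hτA
      _ ≤ A * (1 / (2 * (A + 1))) := by
          gcongr; exact hWn.le.trans (min_le_left _ _)
      _ ≤ 1 / 2 := by
          rw [mul_one_div, div_le_div_iff₀ (by positivity) (by norm_num)]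
          linarith
  have h1τ : 0 < 1 - τ := by linarith
  set h : V := (1 - τ)⁻¹ • (τ • p - W) with hh
  have hfh : f h = 0 := by
    rw [hh, map_smul, map_sub, map_smul, smul_eq_mul, smul_eq_mul, hτ, div_mul_cancel₀ _ hfp.ne',
      sub_self, mul_zero]
  have hhn : ‖h‖ ≤ c0 * s := by
    have i1 : (1 - τ)⁻¹ ≤ 2 := by
      rw [inv_le_comm₀ h1τ (by norm_num)]; linarith
    have i2 : ‖τ • p - W‖ ≤ (A * ‖p‖ + 1) * ‖W‖ := by
      refine (norm_sub_le _ _).trans ?_
      rw [norm_smul, Real.norm_eq_abs, abs_of_pos hτ0]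
      nlinarith [mul_le_mul_of_nonneg_right hτA (norm_nonneg p)]
    rw [hh, norm_smul, Real.norm_eq_abs, abs_of_pos (inv_pos.2 h1τ)]
    calc (1 - τ)⁻¹ * ‖τ • p - W‖ ≤ 2 * ((A * ‖p‖ + 1) * ‖W‖) :=
          mul_le_mul i1 i2 (norm_nonneg _) (by norm_num)
      _ ≤ 2 * ((A * ‖p‖ + 1) * (s * c0 / (2 * (1 + A * ‖p‖)))) := by
          gcongr; exact hWn.le.trans (min_le_right _ _)
      _ = c0 * s := by
          have : (1 + A * ‖p‖) ≠ 0 := by positivity
          field_simp
          ring
  obtain ⟨co, hco⟩ := hspan h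
  have hco2 : co 2 = 0 := by
    have h1 := congrArg f hco
    rw [Fin.sum_univ_three, hfh] at h1
    simp only [Matrix.cons_val_zero, Matrix.cons_val_one, Matrix.cons_val, map_add, map_smul,
      hfv, hfw, smul_eq_mul, mul_zero, zero_add] at h1
    exact (mul_eq_zero.1 h1).resolve_right hfp.ne'
  have hcon : ‖co‖ ≤ s := by
    have h1 := hcoord co
    rw [hco] at h1
    have h2 := h1.trans hhn
    exact le_of_mul_le_mul_left h2 hc0
  have hheq : h = co 0 • v + co 1 • w := by
    rw [← hco, Fin.sum_univ_three, hco2]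
    simp
  have hgh : g + h ∈ cut K x ρ1 := by
    rw [hheq, ← add_assoc]
    apply hgc
    · exact (Real.norm_eq_abs (co 0) ▸ norm_le_pi_norm co 0).trans hcon
    · exact (Real.norm_eq_abs (co 1) ▸ norm_le_pi_norm co 1).trans hcon
  refine ⟨(1 - τ) • (g + h) + τ • z0, (cut_convex ρ1).combo_self_interior_mem_interior hgh hzc1
    h1τ.le hτ0 (by ring), ?_⟩
  have e : (1 - τ) • (g + h) + τ • z0 - u = (1 - τ) • (g - p) + τ • z0 := by
    have e1 : (1 - τ) • h = τ • p - W := by
      rw [hh, smul_smul, mul_inv_cancel₀ h1τ.ne', one_smul]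
    have e2 : u = p - W := by rw [hW]; abel
    rw [smul_add, e1, e2, smul_sub, sub_smul 1 τ p, one_smul]
    abel
  rw [e]
  exact (cut_convex ρ1).combo_self_interior_mem_interior hgpc hzc1 h1τ.le hτ0 (by ring)

end Pool.Agent.K4H96.MD
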