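import Mathlib
import Pool.Agent.K4H96.MD.Contact

/-!
# Limits of lattices that pack the cut bodies
-/

set_option autoImplicit false

open MeasureTheory Filter Topology

namespace Pool.Agent.K4H96.MD

open Pool.Agent.H349R2.Tet (V lat dt Ov dt_ne_zero_iff)

variable {K : Set V} {x : V}

/-- the lattice generated by `b` is admissible for `A` -/
def Ad (A : Set V) (b : Fin 3 → V) : Prop := dt b ≠ 0 ∧ ∀ u ∈ lat b, u ≠ 0 → ¬ Ov A u

theorem short_vec {A : Set V} {z0 : V} {r : ℝ} (hr : 0 < r) (hball : Metric.ball z0 r ⊆ A)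
    {b : Fin 3 → V} (hadm : ∀ u ∈ lat b, u ≠ 0 → ¬ Ov A u) {u : V} (hu : u ∈ lat b)
    (hu0 : u ≠ 0) : r ^ 2 ≤ nsq u := by
  by_contra hlt
  push Not at hlt
  have h1 : ‖u‖ ^ 2 < r ^ 2 := (norm_sq_le_nsq u).trans_lt hlt
  have h2 : ‖u‖ < r := lt_of_pow_lt_pow_left₀ 2 hr.le h1
  have hsub : Metric.ball z0 r ⊆ interior A := interior_maximal hball Metric.isOpen_ball
  apply hadm u hu hu0
  refine ⟨z0, hsub (Metric.mem_ball_self hr), hsub ?_⟩
  rw [Metric.mem_ball, dist_eq_norm, sub_sub_cancel_left, norm_neg]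
  exact h2

theorem coord_le {b : Fin 3 → V} {d0 R C : ℝ} (hd0 : 0 < d0) (hd : d0 ≤ |dt b|)
    (hR : ∀ i, ‖b i‖ ≤ R) {z : Fin 3 → ℝ} (hz : ‖∑ i, z i • b i‖ ≤ C) (j : Fin 3) :
    |z j| ≤ 6 * max R C ^ 3 / d0 := by
  have h1 := Matrix.det_updateRow_sum (Matrix.of b) j z
  have h2 : |((Matrix.of b).updateRow j (∑ k, z k • (Matrix.of b) k)).det| ≤
      6 * max R C ^ 3 := by
    have := Matrix.det_le (A := (Matrix.of b).updateRow j (∑ k, z k • (Matrix.of b) k))
      (abv := AbsoluteValue.abs) (x := max R C) (by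
        intro i k
        rw [Matrix.updateRow_apply]
        split_ifs with h
        · calc |(∑ k, z k • (Matrix.of b) k) k| ≤ ‖∑ k, z k • b k‖ := by
                rw [← Real.norm_eq_abs]
                exact norm_le_pi_norm (∑ k, z k • b k) k
            _ ≤ C := hz
            _ ≤ max R C := le_max_right _ _
        · calc |Matrix.of b i k| ≤ ‖b i‖ := by
                rw [← Real.norm_eq_abs]
                exact norm_le_pi_norm (b i) k
            _ ≤ R := hR i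
            _ ≤ max R C := le_max_left _ _)
    simpa [Nat.factorial] using this
  rw [h1, smul_eq_mul, abs_mul] at h2
  rw [le_div_iff₀ hd0]
  refine le_trans ?_ h2
  exact mul_le_mul_of_nonneg_left hd (abs_nonneg _)

/-- **Extraction of a limit lattice.** -/
theorem limit (hK : IsCompact K) (hc : Convex ℝ K) (hne : (interior K).Nonempty)
    (hx : x ∈ K.extremePoints ℝ) {ρ : ℕ → ℝ} (hρ : ∀ n, 0 < ρ n) (hρ0 : Tendsto ρ atTop (𝓝 0))
    {b : ℕ → Fin 3 → V} (hb : ∀ n, Ad (cut K x (ρ n)) (b n)) {M : ℝ} (hM : ∀ n, |dt (b n)| ≤ M)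
    {u : ℕ → V} (hu : ∀ n, u n ∈ lat (b n)) (hu0 : ∀ n, u n ≠ 0) (huO : ∀ n, Ov K (u n)) :
    ∃ β : Fin 3 → V, Ad K β ∧ |dt β| ≤ M ∧ ∃ p ∈ lat β, p ≠ 0 ∧ (touch K p).Nonempty ∧
      ∀ ρ' > 0, ∀ ε > 0, ∃ w : V, ‖w - p‖ < ε ∧ Ov K w ∧ ¬ Ov (cut K x ρ') w := by
  have hcl : closure (interior K) = K := by
    rw [hc.closure_interior_eq_closure_of_nonempty_interior hne, hK.isClosed.closure_eq]
  -- a ball in the cut bodies
  obtain ⟨z0, hz0⟩ := hne
  have hz0x : z0 ≠ x := by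
    rintro rfl
    exact extreme_notMem_interior hx hz0
  obtain ⟨ρ1, hρ1, hzc⟩ := interior_cut hz0 hz0x
  obtain ⟨r, hr, hball⟩ := Metric.mem_nhds_iff.1 (mem_interior_iff_mem_nhds.1 hzc)
  obtain ⟨n0, hn0⟩ : ∃ n0, ∀ n ≥ n0, ρ n ≤ ρ1 := by
    have := (hρ0.eventually (Iio_mem_nhds hρ1))
    obtain ⟨n0, h⟩ := eventually_atTop.1 this
    exact ⟨n0, fun n hn => (h n hn).le⟩
  have hbase : ∀ n, ∃ b' : Fin 3 → V, lat b' = lat (b (n + n0)) ∧ |dt b'| = |dt (b (n + n0))| ∧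
      (r ^ 2) ^ 3 / 4 ≤ dt b' ^ 2 ∧ ∀ i, nsq (b' i) ≤ 4 * M ^ 2 / (r ^ 2) ^ 2 := by
    intro n
    have h1 := hb (n + n0)
    apply bounded_basis _ h1.1 (by positivity) _ (hM _)
    intro w hw hw0
    exact short_vec hr (hball.trans (cut_mono (hn0 (n + n0) (by omega)))) h1.2 hw hw0
  choose b' hb1 hb2 hb3 hb4 using hbase
  -- the overlap points
  have hover : ∀ n, ∃ y ∈ K, y - u (n + n0) ∈ K := by
    intro n
    obtain ⟨y, h1, h2⟩ := huO (n + n0)
    exact ⟨y, interior_subset h1, interior_subset h2⟩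
  choose y hy1 hy2 using hover
  obtain ⟨C, hC⟩ := hK.isBounded.exists_norm_le
  have hCu : ∀ n, ‖u (n + n0)‖ ≤ 2 * C := by
    intro n
    have e : u (n + n0) = y n - (y n - u (n + n0)) := by abel
    rw [e]
    refine (norm_sub_le _ _).trans ?_
    linarith [hC _ (hy1 n), hC _ (hy2 n)]
  set R := Real.sqrt (4 * M ^ 2 / (r ^ 2) ^ 2) with hR
  have hbR : ∀ n i, ‖b' n i‖ ≤ R := by
    intro n i
    apply Real.le_sqrt_of_sq_le
    exact (norm_sq_le_nsq _).trans (hb4 n i)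
  set d0 := Real.sqrt ((r ^ 2) ^ 3 / 4) with hd0
  have hd0pos : 0 < d0 := Real.sqrt_pos.2 (by positivity)
  have hbd : ∀ n, d0 ≤ |dt (b' n)| := by
    intro n
    rw [← Real.sqrt_sq_eq_abs]
    exact Real.sqrt_le_sqrt (hb3 n)
  have hz : ∀ n, ∃ z : Fin 3 → ℤ, u (n + n0) = ∑ i, (z i : ℝ) • b' n i := by
    intro n
    have := hu (n + n0)
    rw [← hb1 n] at this
    exact this
  choose z hz using hz
  set N : ℤ := ⌈6 * max R (2 * C) ^ 3 / d0⌉ with hN
  have hzN : ∀ n, z n ∈ Set.Icc (fun _ : Fin 3 => -N) (fun _ => N) := by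
    intro n
    have h1 : ∀ j, |((z n j : ℤ) : ℝ)| ≤ (N : ℝ) := by
      intro j
      have := coord_le (z := fun i => ((z n i : ℤ) : ℝ)) hd0pos (hbd n) (hbR n)
        (C := 2 * C) (by rw [← hz n]; exact hCu n) j
      exact this.trans (Int.le_ceil _)
    rw [Set.mem_Icc]
    constructor <;> intro j
    · have := (abs_le.1 (h1 j)).1
      exact_mod_cast this
    · have := (abs_le.1 (h1 j)).2
      exact_mod_cast this
  -- extraction
  have hcomp : IsCompact ((Metric.closedBall (0 : Fin 3 → V) R) ×ˢ (K ×ˢ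
      (Set.Icc (fun _ : Fin 3 => -N) (fun _ => N)))) :=
    (isCompact_closedBall _ _).prod (hK.prod (Set.finite_Icc _ _).isCompact)
  obtain ⟨⟨β, y', m⟩, hmem, φ, hφ, hlim⟩ := hcomp.tendsto_subseq
    (x := fun n => (b' n, y n, z n)) (by
      intro n
      refine ⟨?_, hy1 n, hzN n⟩
      rw [mem_closedBall_zero_iff]
      exact (pi_norm_le_iff_of_nonneg (Real.sqrt_nonneg _)).2 (hbR n))
  have hL1 : Tendsto (fun n => b' (φ n)) atTop (𝓝 β) := (continuous_fst.tendsto _).comp hlim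
  have hL2 : Tendsto (fun n => y (φ n)) atTop (𝓝 y') :=
    ((continuous_fst.comp continuous_snd).tendsto _).comp hlim
  have hL3 : Tendsto (fun n => z (φ n)) atTop (𝓝 m) :=
    ((continuous_snd.comp continuous_snd).tendsto _).comp hlim
  have hm : ∀ᶠ n in atTop, z (φ n) = m := by
    have := hL3 (IsOpen.mem_nhds (isOpen_discrete {m}) rfl)
    exact this
  have hdtc : Continuous (fun b : Fin 3 → V => dt b) := by
    unfold dt
    exact Continuous.matrix_det continuous_id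
  have hdt : Tendsto (fun n => |dt (b' (φ n))|) atTop (𝓝 |dt β|) :=
    ((continuous_abs.comp hdtc).tendsto _).comp hL1
  have hβ1 : d0 ≤ |dt β| := ge_of_tendsto' hdt fun n => hbd _
  have hβ2 : |dt β| ≤ M := le_of_tendsto' hdt fun n => by rw [hb2]; exact hM _
  have hβ0 : dt β ≠ 0 := abs_pos.1 (hd0pos.trans_le hβ1)
  -- convergence of lattice vectors
  have hvec : ∀ k : Fin 3 → ℤ, Tendsto (fun n => ∑ i, (k i : ℝ) • b' (φ n) i) atTop
      (𝓝 (∑ i, (k i : ℝ) • β i)) := by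
    intro k
    apply tendsto_finsetSum
    intro i _
    exact ((((continuous_apply i).tendsto β).comp hL1)).const_smul _
  have hbig : ∀ ρ' > 0, ∀ᶠ n in atTop, ρ (φ n + n0) ≤ ρ' := by
    intro ρ' hρ'
    have h1 : Tendsto (fun n => ρ (φ n + n0)) atTop (𝓝 0) :=
      hρ0.comp ((tendsto_add_atTop_nat n0).comp hφ.tendsto_atTop)
    exact (h1.eventually (Iio_mem_nhds hρ')).mono fun n hn => le_of_lt hn
  refine ⟨β, ⟨hβ0, ?_⟩, hβ2, ∑ i, (m i : ℝ) • β i, ⟨m, rfl⟩, ?_, ?_, ?_⟩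
  · -- admissible
    rintro w ⟨k, rfl⟩ hw0 ⟨q, hq1, hq2⟩
    set w : V := ∑ i, (k i : ℝ) • β i with hw
    have hqx : q ≠ x := by
      rintro rfl
      exact extreme_notMem_interior hx hq1
    have hqwx : q - w ≠ x := by
      intro h
      exact extreme_notMem_interior hx (h ▸ hq2)
    obtain ⟨s1, hs1, hc1⟩ := interior_cut hq1 hqx
    obtain ⟨s2, hs2, hc2⟩ := interior_cut hq2 hqwx
    have hw' := hvec k
    have e1 : ∀ᶠ n in atTop, ∑ i, (k i : ℝ) • b' (φ n) i ≠ 0 :=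
      hw'.eventually (isOpen_ne.mem_nhds hw0)
    have e2 : ∀ᶠ n in atTop, q - ∑ i, (k i : ℝ) • b' (φ n) i ∈ interior (cut K x s2) :=
      (tendsto_const_nhds.sub hw').eventually (isOpen_interior.mem_nhds hc2)
    obtain ⟨n, h1, h2, h3, h4⟩ := (e1.and (e2.and ((hbig s1 hs1).and (hbig s2 hs2)))).exists
    apply (hb (φ n + n0)).2 (∑ i, (k i : ℝ) • b' (φ n) i) (by rw [← hb1]; exact ⟨k, rfl⟩) h1
    exact ⟨q, interior_mono (cut_mono h3) hc1, interior_mono (cut_mono h4) h2⟩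
  · -- nonzero
    intro h0
    have hli := (dt_ne_zero_iff β).1 hβ0
    have hm0 : ∀ i, ((m i : ℤ) : ℝ) = 0 := Fintype.linearIndependent_iff.1 hli _ h0
    obtain ⟨n, hn⟩ := hm.exists
    apply hu0 (φ n + n0)
    rw [hz, hn]
    exact Finset.sum_eq_zero fun i _ => by rw [hm0 i, zero_smul]
  · -- touching
    have hup : Tendsto (fun n => u (φ n + n0)) atTop (𝓝 (∑ i, (m i : ℝ) • β i)) := by
      refine (hvec m).congr' ?_
      filter_upwards [hm] with n hn
      rw [hz, hn]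
    refine ⟨y', hmem.2.1, ?_⟩
    exact hK.isClosed.mem_of_tendsto (hL2.sub hup) (Eventually.of_forall fun n => hy2 _)
  · intro ρ' hρ' ε hε
    have hup : Tendsto (fun n => u (φ n + n0)) atTop (𝓝 (∑ i, (m i : ℝ) • β i)) := by
      refine (hvec m).congr' ?_
      filter_upwards [hm] with n hn
      rw [hz, hn]
    have e1 : ∀ᶠ n in atTop, ‖u (φ n + n0) - ∑ i, (m i : ℝ) • β i‖ < ε := by
      have := (tendsto_iff_norm_sub_tendsto_zero.1 hup)
      exact this.eventually (Iio_mem_nhds hε)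
    obtain ⟨n, h1, h2⟩ := (e1.and (hbig ρ' hρ')).exists
    refine ⟨_, h1, huO _, fun hO => ?_⟩
    exact (hb (φ n + n0)).2 _ (hu _) (hu0 _) (Ov_mono (cut_mono h2) hO)

end Pool.Agent.K4H96.MD
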