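import Mathlib
import Pool.Agent.TH219.DL.Defs
import Pool.Agent.K4H96.MD.Limit

/-!
# The lattice packing density in terms of admissible bases
-/

set_option autoImplicit false

open MeasureTheory Filter Topology
open scoped ENNReal

namespace Pool.Agent.K4H96.MD

open Pool.Agent.H349R2.Tet (V lat dt Ov dt_ne_zero_iff tr Packs dens packs_iff dens_eq)
open Pool.Agent.TH219.DL (mem IsPack den famL dL Body mn)

theorem mem_false (K : Set V) (c : V) : mem K (false, c) = tr K c := by
  unfold mem tr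
  simp

theorem packs_famL (K : Set V) (b : Fin 3 → V) :
    (LinearIndependent ℝ b ∧ IsPack K (famL b)) ↔ Packs K b := by
  unfold Packs
  refine and_congr_right fun _ => ⟨fun h u hu v hv huv => ?_, fun h p hp q hq hpq => ?_⟩
  · have := h (false, u) ⟨rfl, hu⟩ (false, v) ⟨rfl, hv⟩ (fun e => huv (congrArg Prod.snd e))
    rwa [mem_false, mem_false] at this
  · obtain ⟨p1, p2⟩ := p
    obtain ⟨q1, q2⟩ := q
    obtain ⟨rfl, hp⟩ := hp
    obtain ⟨rfl, hq⟩ := hq
    rw [mem_false, mem_false]
    exact h p2 hp q2 hq (fun e => hpq (by rw [show p2 = q2 from e]))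

theorem den_famL (K : Set V) (b : Fin 3 → V) : den K (famL b) = dens K b := by
  unfold den dens
  congr 1
  funext r
  congr 1
  let e : lat b ≃ famL b :=
    { toFun := fun u => ⟨(false, u.1), rfl, u.2⟩
      invFun := fun p => ⟨p.1.2, p.2.2⟩
      left_inv := fun u => rfl
      right_inv := fun p => by
        apply Subtype.ext
        have : p.1.1 = false := p.2.1
        exact Prod.ext this.symm rfl }
  rw [← e.tsum_eq]
  apply tsum_congr
  intro u
  show volume (mem K (false, u.1) ∩ _) = _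
  rw [mem_false]

theorem ad_iff (K : Set V) (b : Fin 3 → V) :
    Ad K b ↔ LinearIndependent ℝ b ∧ IsPack K (famL b) := by
  rw [packs_famL, packs_iff]; rfl

variable {K : Set V}

theorem den_eq (hK : IsCompact K) {b : Fin 3 → V} (hb : dt b ≠ 0) :
    den K (famL b) = ENNReal.ofReal ((volume K).toReal / |dt b|) := by
  rw [den_famL, dens_eq b ((dt_ne_zero_iff b).1 hb) K hK, ENNReal.ofReal_div_of_pos (abs_pos.2 hb),
    ENNReal.ofReal_toReal hK.measure_lt_top.ne]

theorem le_dL (hK : IsCompact K) {b : Fin 3 → V} (hb : Ad K b) :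
    ENNReal.ofReal ((volume K).toReal / |dt b|) ≤ dL K := by
  rw [← den_eq hK hb.1]
  unfold dL
  exact le_iSup₂ (f := fun b (_ : LinearIndependent ℝ b ∧ IsPack K (famL b)) => den K (famL b)) b
    ((ad_iff K b).1 hb)

theorem exists_of_lt (hK : IsCompact K) {c : ℝ≥0∞} (h : c < dL K) :
    ∃ b, Ad K b ∧ c < ENNReal.ofReal ((volume K).toReal / |dt b|) := by
  unfold dL at h
  rw [lt_iSup_iff] at h
  obtain ⟨b, h⟩ := h
  rw [lt_iSup_iff] at h
  obtain ⟨hb, h⟩ := h
  have hb' := (ad_iff K b).2 hb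
  exact ⟨b, hb', by rwa [den_eq hK hb'.1] at h⟩

theorem dL_lt_top (hK : Body K) : dL K < ⊤ := by
  obtain ⟨hc, _, z0, hz0⟩ := hK
  obtain ⟨r, hr, hball⟩ := Metric.mem_nhds_iff.1 (mem_interior_iff_mem_nhds.1 hz0)
  set d0 := Real.sqrt ((r ^ 2) ^ 3 / 4) with hd0
  have hd0pos : 0 < d0 := Real.sqrt_pos.2 (by positivity)
  refine lt_of_le_of_lt (b := ENNReal.ofReal ((volume K).toReal / d0)) ?_ ENNReal.ofReal_lt_top
  unfold dL
  refine iSup₂_le fun b hb => ?_
  have hb' := (ad_iff K b).2 hb
  rw [den_eq hc hb'.1]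
  apply ENNReal.ofReal_le_ofReal
  obtain ⟨b1, -, h2, h3, -⟩ := bounded_basis b hb'.1 (ρ := r ^ 2) (by positivity)
    (fun u hu hu0 => short_vec hr hball hb'.2 hu hu0) le_rfl
  have : d0 ≤ |dt b| := by
    rw [← h2, ← Real.sqrt_sq_eq_abs]
    exact Real.sqrt_le_sqrt h3
  gcongr

theorem exists_ad (hK : IsCompact K) : ∃ b, Ad K b := by
  obtain ⟨C, hC⟩ := hK.isBounded.exists_norm_le
  set D := 2 * |C| + 1 with hD
  have hDpos : 0 < D := by positivity
  set b : Fin 3 → V := fun i => D • Pi.single i 1 with hb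
  have hsum : ∀ z : Fin 3 → ℤ, ∑ i, (z i : ℝ) • b i = fun j => D * z j := by
    intro z
    funext j
    rw [Finset.sum_apply, Finset.sum_eq_single j]
    · simp only [hb, Pi.smul_apply, Pi.single_eq_same, smul_eq_mul, mul_one]
      ring
    · intro i _ hi
      simp only [hb, Pi.smul_apply, Pi.single_eq_of_ne (Ne.symm hi), smul_eq_mul, mul_zero]
    · simp
  refine ⟨b, ?_, ?_⟩
  · have : Matrix.of b = D • (1 : Matrix (Fin 3) (Fin 3) ℝ) := by
      ext i j
      simp only [hb, Matrix.of_apply, Pi.smul_apply, Matrix.smul_apply, smul_eq_mul]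
      rw [Matrix.one_apply, Pi.single_apply]
      by_cases h : i = j
      · simp [h]
      · simp [h, Ne.symm h]
    unfold dt
    rw [this, Matrix.det_smul, Matrix.det_one, mul_one]
    positivity
  · rintro u ⟨z, rfl⟩ hu ⟨y, h1, h2⟩
    rw [hsum] at hu h2
    have h3 : ‖(fun j => D * (z j : ℝ) : V)‖ ≤ 2 * |C| := by
      have e : (fun j => D * (z j : ℝ) : V) = y - (y - fun j => D * (z j : ℝ)) := by abel
      rw [e]
      refine (norm_sub_le _ _).trans ?_
      linarith [hC _ (interior_subset h1), hC _ (interior_subset h2), le_abs_self C]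
    apply hu
    funext j
    have h4 := (norm_le_pi_norm (fun j => D * (z j : ℝ) : V) j).trans h3
    rw [Real.norm_eq_abs, abs_mul, abs_of_pos hDpos] at h4
    have h5 : |(z j : ℝ)| < 1 := by
      by_contra hcon
      push Not at hcon
      nlinarith
    have h6 : z j = 0 := by
      have : |z j| < 1 := by exact_mod_cast h5
      exact Int.abs_lt_one_iff.1 this
    simp [h6]

theorem vol_pos (hK : Body K) : 0 < (volume K).toReal :=
  ENNReal.toReal_pos (Measure.measure_pos_of_nonempty_interior _ hK.2.2).ne' hK.1.measure_lt_top.ne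

theorem dL_pos (hK : Body K) : 0 < dL K := by
  obtain ⟨b, hb⟩ := exists_ad hK.1
  refine lt_of_lt_of_le ?_ (le_dL hK.1 hb)
  rw [ENNReal.ofReal_pos]
  exact div_pos (vol_pos hK) (abs_pos.2 hb.1)

end Pool.Agent.K4H96.MD
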