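import Mathlib

/-!
# Task: equality case of the Brunn-Minkowski inequality in space (equal volumes)

`S_BMeq` is the statement to be proved (file `Pool/Agent/K4H96/MD/BMEq.lean`,
`theorem bm_eq : S_BMeq`).

Proof.
(1) It is enough to show, for every linear functional `l ≠ 0`, that the image measures
`l_*(vol|A)` and `l_*(vol|B)` are translates of each other (by a number `c l`). Indeed then
`c l = (∫_B l - ∫_A l) / V = l v`, `v` = centroid of `B` minus centroid of `A`, and the largest value of
`l` on `B` is the largest value of `l` on `A` plus `l v` (the bodies are the closures of their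
interiors, so the support of the image measure is `l '' A`); so `A + v` and `B` have the same support
function and are equal (Hahn-Banach: compact convex sets).
(2) By a linear change of coordinates (volumes are multiplied by a constant) `l x = x 0`. Let `a z`,
`b z` be the areas of the slices `A_z = {y : Fin 2 → ℝ | cons z y ∈ A}`, `B_z`. They are positive on the open
intervals `(α0, α1)`, `(β0, β1)`, the interiors of the projections, and log-concave
(`a ((1-t) z + t w) ≥ a z ^ (1-t) * a w ^ t`: multiplicative Brunn-Minkowski for slices =
Prekopa-Leindler `Pool.Agent.H212R2.KLS.PL`, see `Pool/Agent/K4H96/HS/BM0.lean`), so continuous there. Let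
`T : (α0, α1) → (β0, β1)` be the increasing bijection with `∫_{β0}^{T z} b = ∫_{α0}^z a` (the total integrals are
equal). It has the derivative `T' z = a z / b (T z)`.
(3) `C = (1-s) A + s B` contains, at the height `h z = (1-s) z + s T z`, the set `(1-s) A_z + s B_{T z}`, whose
area is at least `a z ^ (1-s) * b (T z) ^ s` (Prekopa-Leindler again). So
`vol C ≥ ∫_{α0}^{α1} a z ^ (1-s) * b (T z) ^ s * ((1-s) + s a z / b (T z)) dz ≥ ∫ a z dz = V ≥ vol C`
by the weighted AM-GM inequality `(1-s) + s q ≥ q ^ s`, `q = a z / b (T z)`, with equality only for `q = 1`.
The integrands are continuous, so `q = 1` for all `z`, `T' = 1`, `T z = z + c`, so `b (z + c) = a z` for all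
`z` in `(α0, α1)`, which gives (1).
-/

set_option autoImplicit false

open MeasureTheory
open scoped Pointwise

namespace Pool.Agent.K4H96.MD

/-- equality case of the Brunn-Minkowski inequality in `ℝ³`, for bodies of equal volume -/
def S_BMeq : Prop :=
  ∀ A B : Set (Fin 3 → ℝ), IsCompact A → Convex ℝ A → (interior A).Nonempty →
    IsCompact B → Convex ℝ B → (interior B).Nonempty → volume A = volume B →
    ∀ s : ℝ, 0 < s → s < 1 → volume ((1 - s) • A + s • B) ≤ volume A →
    ∃ v : Fin 3 → ℝ, B = (fun x => x + v) '' A

end Pool.Agent.K4H96.MD
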