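import Mathlib
import Pool.Agent.K4H96.MD.DLForm

/-!
# Extreme points of minimisers of the lattice packing density are contact points
-/

set_option autoImplicit false

open MeasureTheory Filter Topology
open scoped ENNReal

namespace Pool.Agent.K4H96.MD

open Pool.Agent.H349R2.Tet (V lat dt Ov dt_ne_zero_iff lat_neg lat_add lat_smul)
open Pool.Agent.TH219.DL (IsPack den famL dL Body mn)

/-- `K` is a local minimiser, from inside, of `δ_L`: the density of no convex body contained in `K` and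
close to `K` is smaller. -/
def InnerMin (δ : Set V → ℝ≥0∞) (K : Set V) : Prop :=
  ∃ ε : ℝ, 0 < ε ∧ ∀ K' : Set V, Body K' → K' ⊆ K → (∀ y ∈ K, ∃ y' ∈ K', dist y y' ≤ ε) →
    δ K ≤ δ K'

/-- `b` generates the lattice of a densest lattice packing of `K` -/
def Densest (K : Set V) (b : Fin 3 → V) : Prop :=
  LinearIndependent ℝ b ∧ IsPack K (famL b) ∧ den K (famL b) = dL K

theorem innerMin_of_min {δ : Set V → ℝ≥0∞} {K : Set V} (h : δ K = mn δ) : InnerMin δ K := by
  refine ⟨1, one_pos, fun K' hK' _ _ => ?_⟩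
  rw [h]
  exact iInf₂_le K' hK'

theorem collinear_neg {K : Set V} {p : V} (h : Collinear ℝ (touch K p)) :
    Collinear ℝ (touch K (-p)) := by
  rw [collinear_iff_exists_forall_eq_smul_vadd] at h ⊢
  obtain ⟨p0, v, h⟩ := h
  refine ⟨p0 - p, v, fun y hy => ?_⟩
  have : y + p ∈ touch K p := by
    refine ⟨?_, ?_⟩
    · have := hy.2; rwa [sub_neg_eq_add] at this
    · rw [add_sub_cancel_right]; exact hy.1
  obtain ⟨r, hr⟩ := h _ this
  refine ⟨r, ?_⟩
  rw [vadd_eq_add] at hr ⊢
  rw [← add_sub_assoc, ← hr, add_sub_cancel_right]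

theorem contact {K : Set V} (hK : Body K) (hmin : InnerMin dL K) {x : V}
    (hx : x ∈ K.extremePoints ℝ) :
    ∃ b : Fin 3 → V, Densest K b ∧ ∃ p ∈ lat b, p ≠ 0 ∧ x ∈ touch K p ∧
      Collinear ℝ (touch K p) := by
  obtain ⟨hcK, hvK, hneK⟩ := hK
  have hK : Body K := ⟨hcK, hvK, hneK⟩
  obtain ⟨ε, hε, hmin⟩ := hmin
  have hxK : x ∈ K := (mem_extremePoints.1 hx).1
  obtain ⟨z0, hz0⟩ := id hneK
  have hz0x : z0 ≠ x := by
    rintro rfl
    exact extreme_notMem_interior hx hz0
  obtain ⟨ρ1, hρ1, hzc⟩ := interior_cut hz0 hz0x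
  set ρ2 := min (ε / 2) (min ρ1 (dist z0 x)) with hρ2
  have hρ2pos : 0 < ρ2 := by
    have := dist_pos.2 hz0x
    positivity
  set ρ : ℕ → ℝ := fun n => ρ2 / (n + 1) with hρ
  have hρpos : ∀ n, 0 < ρ n := fun n => by simp only [hρ]; positivity
  have hρle : ∀ n, ρ n ≤ ρ2 := fun n => by
    simp only [hρ]
    apply div_le_self hρ2pos.le
    have : (0 : ℝ) ≤ n := n.cast_nonneg
    linarith
  have hρ0 : Tendsto ρ atTop (𝓝 0) := by
    simp only [hρ]
    exact tendsto_const_nhds.div_atTop (tendsto_natCast_atTop_atTop.atTop_add tendsto_const_nhds)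
  have hbody : ∀ n, Body (cut K x (ρ n)) := fun n =>
    ⟨cut_compact hcK _, cut_convex _, z0, interior_mono
      (cut_mono ((hρle n).trans ((min_le_right _ _).trans (min_le_left _ _)))) hzc⟩
  have hle : ∀ n, dL K ≤ dL (cut K x (ρ n)) := by
    intro n
    apply hmin _ (hbody n) (cut_subset hvK _)
    intro y hy
    obtain ⟨y', h1, h2⟩ := cut_near hvK (interior_subset hz0) hxK hz0x (hρpos n)
      ((hρle n).trans ((min_le_right _ _).trans (min_le_right _ _))) hy
    refine ⟨y', h1, h2.trans ?_⟩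
    have := (hρle n).trans (min_le_left _ _)
    linarith
  set k := (volume K).toReal with hk
  set d := (dL K).toReal with hd
  have hkpos : 0 < k := vol_pos hK
  have hdt : dL K ≠ ⊤ := (dL_lt_top hK).ne
  have hdpos : 0 < d := ENNReal.toReal_pos (dL_pos hK).ne' hdt
  have hde : dL K = ENNReal.ofReal d := (ENNReal.ofReal_toReal hdt).symm
  -- the lattices
  have hlatt : ∀ n, ∃ b : Fin 3 → V, Ad (cut K x (ρ n)) b ∧ |dt b| ≤ k / d ∧
      ∃ u ∈ lat b, u ≠ 0 ∧ Ov K u := by
    intro n
    set kn := (volume (cut K x (ρ n))).toReal with hkn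
    have hknpos : 0 < kn := vol_pos (hbody n)
    have hknlt : kn < k := by
      apply (ENNReal.toReal_lt_toReal (cut_compact hcK _).measure_lt_top.ne
        hcK.measure_lt_top.ne).2
      exact cut_volume hcK hvK hneK hx (hρpos n)
    have hc : ENNReal.ofReal (d * kn / k) < dL (cut K x (ρ n)) := by
      refine lt_of_lt_of_le ?_ (hle n)
      rw [hde]
      apply (ENNReal.ofReal_lt_ofReal_iff hdpos).2
      rw [div_lt_iff₀ hkpos]
      exact mul_lt_mul_of_pos_left hknlt hdpos
    obtain ⟨b, hb, hlt⟩ := exists_of_lt (cut_compact hcK _) hc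
    have hD : 0 < |dt b| := abs_pos.2 hb.1
    rw [ENNReal.ofReal_lt_ofReal_iff (by positivity), div_lt_div_iff₀ hkpos hD] at hlt
    have hDlt : |dt b| < k / d := by
      rw [lt_div_iff₀ hdpos]
      have : kn * (|dt b| * d) < kn * k := by nlinarith
      exact lt_of_mul_lt_mul_left this hknpos.le
    refine ⟨b, hb, hDlt.le, ?_⟩
    by_contra hcon
    push Not at hcon
    have h1 := le_dL hcK (b := b) ⟨hb.1, fun u hu hu0 => hcon u hu hu0⟩
    rw [hde, ENNReal.ofReal_le_ofReal_iff hdpos.le, div_le_iff₀ hD] at h1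
    rw [lt_div_iff₀ hdpos] at hDlt
    linarith
  choose b hb1 hb2 u hu1 hu2 hu3 using hlatt
  obtain ⟨β, hβ, hβ2, p, hp, hp0, htouch, hseq⟩ :=
    limit hcK hvK hneK hx hρpos hρ0 hb1 hb2 hu1 hu2 hu3
  have hDβ : 0 < |dt β| := abs_pos.2 hβ.1
  have hdens : Densest K β := by
    have h1 := (ad_iff K β).1 hβ
    refine ⟨h1.1, h1.2, ?_⟩
    rw [den_eq hcK hβ.1]
    apply le_antisymm (le_dL hcK hβ)
    rw [hde]
    apply ENNReal.ofReal_le_ofReal
    rw [le_div_iff₀ hDβ]
    rw [le_div_iff₀ hdpos] at hβ2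
    linarith
  have hcol : Collinear ℝ (touch K p) := caseB hcK hvK hneK hx (hβ.2 p hp hp0) htouch hseq
  rcases caseA hcK hseq with h | h
  · exact ⟨β, hdens, p, hp, hp0, ⟨hxK, h⟩, hcol⟩
  · refine ⟨β, hdens, -p, lat_neg hp, neg_ne_zero.2 hp0, ⟨hxK, ?_⟩, collinear_neg hcol⟩
    rwa [sub_neg_eq_add]

/-! ### the number of extreme points -/

/-- at most two extreme points of `K` lie on a line -/
theorem ext_two {K S : Set V} (hS : Collinear ℝ S) (hSK : S ⊆ K) :
    (S ∩ K.extremePoints ℝ).Finite ∧ (S ∩ K.extremePoints ℝ).ncard ≤ 2 := by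
  set T := S ∩ K.extremePoints ℝ with hT
  rw [collinear_iff_exists_forall_eq_smul_vadd] at hS
  obtain ⟨p0, v, hv⟩ := hS
  have key : ∀ a ∈ T, ∀ c ∈ T, ∀ e ∈ T, a ≠ c → ∀ r s t : ℝ, a = r • v +ᵥ p0 → c = s • v +ᵥ p0 →
      e = t • v +ᵥ p0 → r < s → s < t → False := by
    intro a ha c hc e he hac r s t hr hs ht hrs hst
    have hmem : c ∈ openSegment ℝ a e := by
      refine ⟨(t - s) / (t - r), (s - r) / (t - r), div_pos (by linarith) (by linarith),
        div_pos (by linarith) (by linarith), ?_, ?_⟩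
      · rw [← add_div, show t - s + (s - r) = t - r by ring]
        exact div_self (by linarith)
      · rw [hr, hs, ht]
        simp only [vadd_eq_add, smul_add, smul_smul]
        have h1 : ((t - s) / (t - r)) • p0 + ((s - r) / (t - r)) • p0 = p0 := by
          rw [← add_smul, ← add_div, show t - s + (s - r) = t - r by ring,
            div_self (by linarith), one_smul]
        have h2 : ((t - s) / (t - r) * r) • v + ((s - r) / (t - r) * t) • v = s • v := by
          rw [← add_smul]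
          congr 1
          have : t - r ≠ 0 := by linarith
          field_simp
          ring
        calc ((t - s) / (t - r) * r) • v + ((t - s) / (t - r)) • p0 +
              (((s - r) / (t - r) * t) • v + ((s - r) / (t - r)) • p0)
            = (((t - s) / (t - r) * r) • v + ((s - r) / (t - r) * t) • v) +
              (((t - s) / (t - r)) • p0 + ((s - r) / (t - r)) • p0) := by abel
          _ = s • v + p0 := by rw [h1, h2]
    exact hac ((mem_extremePoints.1 hc.2).2 a (hSK ha.1) e (hSK he.1) hmem).1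
  by_cases hsub : T.Subsingleton
  · refine ⟨hsub.finite, ?_⟩
    rcases hsub.eq_empty_or_singleton with h | ⟨a, h⟩
    · rw [h, Set.ncard_empty]; norm_num
    · rw [h, Set.ncard_singleton]; norm_num
  · rw [Set.not_subsingleton_iff] at hsub
    obtain ⟨a, ha, c, hc, hac⟩ := hsub
    obtain ⟨r, hr⟩ := hv a ha.1
    obtain ⟨s, hs⟩ := hv c hc.1
    have hrs : r ≠ s := by rintro rfl; exact hac (hr.trans hs.symm)
    have hTs : T ⊆ {a, c} := by
      intro e he
      obtain ⟨t, ht⟩ := hv e he.1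
      by_contra hcon
      rw [Set.mem_insert_iff, Set.mem_singleton_iff, not_or] at hcon
      obtain ⟨hea, hec⟩ := hcon
      have htr : t ≠ r := by rintro rfl; exact hea (ht.trans hr.symm)
      have hts : t ≠ s := by rintro rfl; exact hec (ht.trans hs.symm)
      rcases lt_or_gt_of_ne hrs with h1 | h1 <;> rcases lt_or_gt_of_ne htr with h2 | h2 <;>
        rcases lt_or_gt_of_ne hts with h3 | h3
      · exact key e he a ha c hc hea t r s ht hr hs h2 h1
      · linarith
      · exact key a ha e he c hc (Ne.symm hea) r t s hr ht hs h2 h3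
      · exact key a ha c hc e he hac r s t hr hs ht h1 h3
      · exact key e he c hc a ha hec t s r ht hs hr h3 h1
      · exact key c hc e he a ha (Ne.symm hec) s t r hs ht hr h3 h2
      · linarith
      · exact key c hc a ha e he (Ne.symm hac) s r t hs hr ht h1 h2
    have hfin : ({a, c} : Set V).Finite := Set.toFinite _
    exact ⟨hfin.subset hTs, (Set.ncard_le_ncard hTs hfin).trans (Set.ncard_pair hac).le⟩

/-- the contact vectors of a lattice packing of `K` -/
def contacts (K : Set V) (L : Set V) : Set V := {p | p ∈ L ∧ p ≠ 0 ∧ (touch K p).Nonempty}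

theorem third_mem {K : Set V} (hc : Convex ℝ K) {z0 : V} (hz0 : z0 ∈ interior K) {y1 y2 : V}
    (h1 : y1 ∈ K) (h2 : y2 ∈ K) :
    ((1 : ℝ) / 3) • y1 + ((1 : ℝ) / 3) • y2 + ((1 : ℝ) / 3) • z0 ∈ interior K := by
  have h3 : ((1 : ℝ) / 2) • y1 + ((1 : ℝ) / 2) • y2 ∈ K :=
    hc h1 h2 (by norm_num) (by norm_num) (by norm_num)
  have h4 := hc.combo_self_interior_mem_interior h3 hz0 (a := 2 / 3) (b := 1 / 3) (by norm_num)
    (by norm_num) (by norm_num)
  convert h4 using 1
  rw [smul_add, smul_smul, smul_smul]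
  norm_num

/-- there are at most `26` contact vectors -/
theorem contacts_card {K : Set V} (hc : Convex ℝ K) (hne : (interior K).Nonempty)
    {b : Fin 3 → V} (hb : Ad K b) :
    (contacts K (lat b)).Finite ∧ (contacts K (lat b)).ncard ≤ 26 := by
  classical
  obtain ⟨z0, hz0⟩ := hne
  let cf : V → Fin 3 → ℤ := fun p => if h : p ∈ lat b then h.choose else 0
  have hcf : ∀ p ∈ lat b, p = ∑ i, (cf p i : ℝ) • b i := by
    intro p hp
    simp only [cf, dif_pos hp]
    exact hp.choose_spec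
  let g : V → (Fin 3 → ZMod 3) := fun p i => (cf p i : ZMod 3)
  -- if the coefficients of `p - q` are divisible by `3`
  have hdiv : ∀ z : Fin 3 → ℤ, (∀ i, ((z i : ℤ) : ZMod 3) = 0) →
      ((1 : ℝ) / 3) • (∑ i, (z i : ℝ) • b i) ∈ lat b := by
    intro z hz
    have h1 : ∀ i, ∃ m : ℤ, z i = 3 * m := by
      intro i
      have := (ZMod.intCast_zmod_eq_zero_iff_dvd (z i) 3).1 (hz i)
      obtain ⟨m, hm⟩ := this
      exact ⟨m, by exact_mod_cast hm⟩
    choose m hm using h1
    refine ⟨m, ?_⟩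
    rw [Finset.smul_sum]
    refine Finset.sum_congr rfl fun i _ => ?_
    rw [hm i, smul_smul]
    push_cast
    congr 1
    ring
  have hne0 : ∀ p ∈ contacts K (lat b), g p ≠ 0 := by
    rintro p ⟨hp, hp0, y, hy1, hy2⟩ h0
    have h1 := hdiv (cf p) (fun i => congrFun h0 i)
    rw [← hcf p hp] at h1
    have h2 : ((1 : ℝ) / 3) • p ≠ 0 := smul_ne_zero (by norm_num) hp0
    apply hb.2 _ h1 h2
    refine ⟨((1 : ℝ) / 3) • y + ((1 : ℝ) / 3) • z0 + ((1 : ℝ) / 3) • z0,
      third_mem hc hz0 hy1 (interior_subset hz0), ?_⟩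
    have := third_mem hc hz0 hy2 (interior_subset hz0)
    convert this using 1
    rw [smul_sub]
    abel
  have hinj : Set.InjOn g (contacts K (lat b)) := by
    rintro p ⟨hp, hp0, y, hy1, hy2⟩ q ⟨hq, hq0, y', hy1', hy2'⟩ hpq
    by_contra hne
    have h1 := hdiv (cf p - cf q) (fun i => by
      have := congrFun hpq i
      simp only [g] at this
      rw [Pi.sub_apply, Int.cast_sub, this, sub_self])
    have h3 : (∑ i, (((cf p - cf q) i : ℤ) : ℝ) • b i) = p - q := by
      have e1 : (∑ i, (((cf p - cf q) i : ℤ) : ℝ) • b i) =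
          ∑ i, (cf p i : ℝ) • b i - ∑ i, (cf q i : ℝ) • b i := by
        rw [← Finset.sum_sub_distrib]
        refine Finset.sum_congr rfl fun i _ => ?_
        rw [Pi.sub_apply, Int.cast_sub, sub_smul]
      rw [e1, ← hcf p hp, ← hcf q hq]
    rw [h3] at h1
    have h2 : ((1 : ℝ) / 3) • (p - q) ≠ 0 := smul_ne_zero (by norm_num) (sub_ne_zero.2 hne)
    apply hb.2 _ h1 h2
    refine ⟨((1 : ℝ) / 3) • y + ((1 : ℝ) / 3) • (y' - q) + ((1 : ℝ) / 3) • z0,
      third_mem hc hz0 hy1 hy2', ?_⟩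
    have := third_mem hc hz0 hy2 hy1'
    convert this using 1
    rw [smul_sub, smul_sub, smul_sub]
    abel
  have htfin : ({z : Fin 3 → ZMod 3 | z ≠ 0}).Finite := Set.toFinite _
  have hmaps : ∀ p ∈ contacts K (lat b), g p ∈ {z : Fin 3 → ZMod 3 | z ≠ 0} := hne0
  refine ⟨Set.Finite.of_injOn hmaps hinj htfin, ?_⟩
  refine (Set.ncard_le_ncard_of_injOn g hmaps hinj htfin).trans ?_
  have : {z : Fin 3 → ZMod 3 | z ≠ 0} = ((Finset.univ.filter fun z : Fin 3 → ZMod 3 => z ≠ 0 :
      Finset (Fin 3 → ZMod 3)) : Set (Fin 3 → ZMod 3)) := by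
    ext z; simp
  rw [this, Set.ncard_coe_finset, Finset.filter_ne', Finset.card_erase_of_mem (Finset.mem_univ _)]
  simp [ZMod.card]

end Pool.Agent.K4H96.MD
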