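import Mathlib
import Pool.Agent.K4H96.MD.Main

/-!
# Minimisers with finitely many densest lattices are polytopes
-/

set_option autoImplicit false

open MeasureTheory Filter Topology
open scoped ENNReal

namespace Pool.Agent.K4H96.MD

open Pool.Agent.H349R2.Tet (V lat dt Ov dt_ne_zero_iff lat_neg lat_add lat_smul)
open Pool.Agent.TH219.DL (IsPack den famL dL Body mn)

/-- the lattices of the densest lattice packings of `K` -/
def lattices (K : Set V) : Set (Set V) := {L | ∃ b, Densest K b ∧ lat b = L}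

theorem polytope {K : Set V} (hK : Body K) (hmin : InnerMin dL K) (hfin : (lattices K).Finite) :
    (K.extremePoints ℝ).Finite ∧ (K.extremePoints ℝ).ncard ≤ 52 * (lattices K).ncard ∧
      K = convexHull ℝ (K.extremePoints ℝ) := by
  classical
  obtain ⟨hcK, hvK, hneK⟩ := id hK
  -- the extreme points at the contacts of one lattice
  have hone : ∀ L ∈ lattices K, ∃ E : Finset V, E.card ≤ 52 ∧
      ∀ x ∈ K.extremePoints ℝ, (∃ p ∈ L, p ≠ 0 ∧ x ∈ touch K p ∧ Collinear ℝ (touch K p)) → x ∈ E := by
    rintro L ⟨b, hb, rfl⟩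
    have hAd : Ad K b := (ad_iff K b).2 ⟨hb.1, hb.2.1⟩
    obtain ⟨hf, hcard⟩ := contacts_card hvK hneK hAd
    let F : V → Finset V := fun p =>
      if h : Collinear ℝ (touch K p) then (ext_two (K := K) h (fun y hy => hy.1)).1.toFinset else ∅
    have hF : ∀ p, (F p).card ≤ 2 := by
      intro p
      simp only [F]
      split_ifs with h
      · have := (ext_two (K := K) h (fun y hy => hy.1)).2
        rwa [Set.ncard_eq_toFinset_card _ (ext_two (K := K) h (fun y hy => hy.1)).1] at this
      · simp
    refine ⟨hf.toFinset.biUnion F, ?_, ?_⟩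
    · have h1 := Finset.card_biUnion_le_card_mul hf.toFinset F 2 (fun p _ => hF p)
      rw [← Set.ncard_eq_toFinset_card _ hf] at h1
      omega
    · rintro x hx ⟨p, hp, hp0, hxt, hcol⟩
      rw [Finset.mem_biUnion]
      refine ⟨p, ?_, ?_⟩
      · rw [Set.Finite.mem_toFinset]
        exact ⟨hp, hp0, x, hxt⟩
      · simp only [F, dif_pos hcol, Set.Finite.mem_toFinset]
        exact ⟨hxt, hx⟩
  choose! E hE1 hE2 using hone
  have hsub : K.extremePoints ℝ ⊆ (hfin.toFinset.biUnion E : Finset V) := by
    intro x hx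
    obtain ⟨b, hb, p, hp, hp0, hxt, hcol⟩ := contact hK hmin hx
    rw [Finset.coe_biUnion, Set.mem_iUnion₂]
    have hL : lat b ∈ lattices K := ⟨b, hb, rfl⟩
    refine ⟨lat b, ?_, hE2 _ hL x hx ⟨p, hp, hp0, hxt, hcol⟩⟩
    rw [Finset.mem_coe, Set.Finite.mem_toFinset]
    exact hL
  have hext : (K.extremePoints ℝ).Finite := (Finset.finite_toSet _).subset hsub
  refine ⟨hext, ?_, ?_⟩
  · have h1 := Set.ncard_le_ncard hsub (Finset.finite_toSet _)
    rw [Set.ncard_coe_finset] at h1
    have h2 := Finset.card_biUnion_le_card_mul hfin.toFinset E 52 (fun L hL =>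
      hE1 L (by rwa [Set.Finite.mem_toFinset] at hL))
    rw [← Set.ncard_eq_toFinset_card _ hfin] at h2
    linarith
  · have h1 := closure_convexHull_extremePoints hcK hvK
    rw [(hext.isClosed_convexHull (𝕜 := ℝ)).closure_eq] at h1
    exact h1.symm

end Pool.Agent.K4H96.MD
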