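import Mathlib
import Pool.Agent.H349R2.Tet.Dens1
import Pool.Agent.H349R2.Tet.Pack
import Pool.Agent.H349R2.Tet.Basic

/-!
# Reduced bases of lattices in space
-/

set_option autoImplicit false

namespace Pool.Agent.K4H96.MD

open Pool.Agent.H349R2.Tet (V lat dt lat_add lat_smul lat_neg dt_ne_zero_iff)

/-- scalar product -/
def ip (x y : V) : ℝ := x 0 * y 0 + x 1 * y 1 + x 2 * y 2

/-- squared Euclidean norm -/
def nsq (x : V) : ℝ := x 0 ^ 2 + x 1 ^ 2 + x 2 ^ 2

theorem nsq_nonneg (x : V) : 0 ≤ nsq x := by unfold nsq; positivity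

theorem nsq_add (x y : V) (c : ℝ) : nsq (x + c • y) = nsq x + 2 * c * ip x y + c ^ 2 * nsq y := by
  simp only [nsq, ip, Pi.add_apply, Pi.smul_apply, smul_eq_mul]
  ring

theorem gram (b : Fin 3 → V) : dt b ^ 2 = nsq (b 0) * nsq (b 1) * nsq (b 2)
    + 2 * ip (b 1) (b 2) * ip (b 0) (b 2) * ip (b 0) (b 1)
    - nsq (b 0) * ip (b 1) (b 2) ^ 2 - nsq (b 1) * ip (b 0) (b 2) ^ 2
    - nsq (b 2) * ip (b 0) (b 1) ^ 2 := by
  rw [Pool.Agent.H349R2.Tet.dt_eq]
  simp only [nsq, ip]
  ring

/-- the algebraic inequality for reduced bases -/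
theorem alg {a b c p q r : ℝ} (ha : 0 < a) (hab : a ≤ b) (hbc : b ≤ c)
    (hp : 2 * |p| ≤ b) (hq : 2 * |q| ≤ a) (hr : 2 * |r| ≤ a)
    (h3 : p * q * r < 0 → 2 * (|p| + |q| + |r|) ≤ a + b) :
    a * b * c / 4 ≤ a * b * c + 2 * p * q * r - a * p ^ 2 - b * q ^ 2 - c * r ^ 2 := by
  have hP := abs_nonneg p
  have hQ := abs_nonneg q
  have hR := abs_nonneg r
  rw [← sq_abs p, ← sq_abs q, ← sq_abs r]
  have hb : 0 < b := ha.trans_le hab
  have hc : 0 < c := hb.trans_le hbc
  have hr2 : |r| ^ 2 ≤ a * a / 4 := by nlinarith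
  have hq2 : |q| ^ 2 ≤ a * a / 4 := by nlinarith
  have hp2 : |p| ^ 2 ≤ b * b / 4 := by nlinarith
  have hr3 : |r| ^ 2 ≤ a * b / 4 := by nlinarith
  -- reduce to `c = b`
  have h1 : 0 ≤ (c - b) * (3 * (a * b) / 4 - |r| ^ 2) := by
    apply mul_nonneg (by linarith)
    nlinarith [mul_pos ha hb]
  suffices h : 0 ≤ 3 / 4 * (a * b * b) + 2 * p * q * r - a * |p| ^ 2 - b * |q| ^ 2 - b * |r| ^ 2 by
    nlinarith [h1, h]
  rcases lt_or_ge (p * q * r) 0 with hneg | hpos
  · have h4 := h3 hneg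
    have h5 : p * q * r = -(|p| * |q| * |r|) := by
      rw [← abs_mul, ← abs_mul, abs_of_neg hneg]; ring
    have e1 : b * |r| ^ 2 ≤ a * b / 2 * |r| := by nlinarith [mul_nonneg hb.le hR]
    have e2 : b * |q| ^ 2 ≤ a * b / 2 * |q| := by nlinarith [mul_nonneg hb.le hQ]
    have e3 : a * |p| ^ 2 ≤ a * b / 2 * |p| := by nlinarith [mul_nonneg ha.le hP]
    have e4 : a * b / 2 * (|p| + |q| + |r|) ≤ a * b * b / 2 := by nlinarith [mul_pos ha hb]
    have e5 : 2 * (|p| * |q| * |r|) ≤ a * b * b / 4 := by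
      have i1 : |p| * |q| ≤ b / 2 * (a / 2) :=
        mul_le_mul (by linarith) (by linarith) hQ (by linarith)
      have i2 : |p| * |q| * |r| ≤ b / 2 * (a / 2) * (a / 2) :=
        mul_le_mul i1 (by linarith) hR (by positivity)
      nlinarith [mul_pos ha hb]
    have e6 : 2 * p * q * r = -(2 * (|p| * |q| * |r|)) := by linear_combination 2 * h5
    rw [e6]
    nlinarith
  · have e1 : b * |r| ^ 2 ≤ a * b * b / 4 := by nlinarith [mul_pos ha hb]
    have e2 : b * |q| ^ 2 ≤ a * b * b / 4 := by nlinarith [mul_pos ha hb]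
    have e3 : a * |p| ^ 2 ≤ a * b * b / 4 := by nlinarith [mul_pos ha hb]
    have e6 : 0 ≤ 2 * p * q * r := by nlinarith
    nlinarith

/-- elementary operations do not change the lattice -/
theorem lat_subset {b b' : Fin 3 → V} (h : ∀ k, b' k ∈ lat b) : lat b' ⊆ lat b := by
  rintro x ⟨z, rfl⟩
  rw [Fin.sum_univ_three]
  exact lat_add (lat_add (lat_smul _ (h 0)) (lat_smul _ (h 1))) (lat_smul _ (h 2))

theorem self_mem (b : Fin 3 → V) (k : Fin 3) : b k ∈ lat b := by
  refine ⟨Pi.single k 1, ?_⟩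
  rw [Finset.sum_eq_single k]
  · simp
  · intro j _ hj
    simp [Pi.single_eq_of_ne hj]
  · simp

theorem op_lat (b : Fin 3 → V) {i j : Fin 3} (h : i ≠ j) (c : ℤ) :
    lat (Function.update b i (b i + (c : ℝ) • b j)) = lat b := by
  apply Set.Subset.antisymm
  · apply lat_subset
    intro k
    by_cases hk : k = i
    · subst hk
      rw [Function.update_self]
      exact lat_add (self_mem b k) (lat_smul c (self_mem b j))
    · rw [Function.update_of_ne hk]
      exact self_mem b k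
  · apply lat_subset
    intro k
    set b' := Function.update b i (b i + (c : ℝ) • b j) with hb'
    have hj : b' j = b j := Function.update_of_ne (Ne.symm h) _ _
    by_cases hk : k = i
    · subst hk
      have e : b k = b' k + ((-c : ℤ) : ℝ) • b' j := by
        rw [hj, hb', Function.update_self]
        push_cast
        rw [neg_smul]
        abel
      rw [e]
      exact lat_add (self_mem b' k) (lat_smul _ (self_mem b' j))
    · rw [← show b' k = b k from Function.update_of_ne hk _ _]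
      exact self_mem b' k

theorem op_dt (b : Fin 3 → V) {i j : Fin 3} (h : i ≠ j) (c : ℝ) :
    dt (Function.update b i (b i + c • b j)) = dt b := by
  unfold dt
  exact Matrix.det_updateRow_add_smul_self (Matrix.of b) h c

end Pool.Agent.K4H96.MD
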